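import Mathlib
import Pool.Agent.H723R3.EuclidLocal
import Pool.Agent.TH115.SD.Hensel
import Pool.Agent.N856.QB.Stm

/-!
# Project QB (helper856): the completions of a quadratic field at a prime which does not ramify

The first two sections are adapted from `Pool/Agent/R428/OP/Disc.lean` and `Pool/Agent/R428/OP/TamK.lean`.
-/

set_option autoImplicit false

open NumberField IsDedekindDomain WithZero

namespace Pool.Agent.N49.QB

open Pool.Agent.N856.QB (Qf Hy)

/-! ### coordinates of integers -/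

section
variable {K : Type} [Field K] [NumberField K] {D : ℤ} {d : K}

open Module

lemma sq_ne (hsq : Squarefree D) (h1 : D ≠ 1) (q : ℚ) : q ^ 2 ≠ (D : ℚ) := by
  intro h
  have hi : IsIntegral ℤ q := by
    have h2 : IsIntegral ℤ (q ^ 2) := by
      rw [h]; exact isIntegral_algebraMap (R := ℤ) (A := ℚ) (x := D)
    exact h2.of_pow (by norm_num)
  obtain ⟨m, hm⟩ := IsIntegrallyClosed.isIntegral_iff.1 hi
  have hm' : (m : ℚ) = q := by simpa using hm
  have h3 : m ^ 2 = D := by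
    have : ((m ^ 2 : ℤ) : ℚ) = (D : ℚ) := by push_cast; rw [hm', h]
    exact_mod_cast this
  have h4 : IsUnit m := hsq m ⟨1, by rw [← h3]; ring⟩
  rcases Int.isUnit_iff.1 h4 with h | h <;> (rw [h] at h3; norm_num at h3; exact h1 h3.symm)

lemma not_rat (hsq : Squarefree D) (h1 : D ≠ 1) (hd : d ^ 2 = (D : K)) (q : ℚ) :
    (algebraMap ℚ K q) ≠ d := by
  intro h
  rw [← h, ← map_pow] at hd
  have h2 : algebraMap ℚ K (q ^ 2) = algebraMap ℚ K (D : ℚ) := by
    rw [hd]; simp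
  exact sq_ne hsq h1 q ((algebraMap ℚ K).injective h2)

lemma linInd (hn : ∀ q : ℚ, algebraMap ℚ K q ≠ d) : LinearIndependent ℚ ![(1 : K), d] := by
  rw [LinearIndependent.pair_iff]
  intro s t h
  have ht : t = 0 := by
    by_contra ht
    apply hn (-(s / t))
    have h1 : algebraMap ℚ K s + algebraMap ℚ K t * d = 0 := by
      rw [Algebra.smul_def, Algebra.smul_def, mul_one] at h
      exact h
    have h2 : algebraMap ℚ K t ≠ 0 := by
      simpa using ht
    rw [map_neg, map_div₀]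
    field_simp
    linear_combination -h1
  subst ht
  refine ⟨?_, rfl⟩
  simpa using h

lemma span_top (hK : ∀ x : K, ∃ a b : ℚ, x = (a : K) + (b : K) * d) :
    ⊤ ≤ Submodule.span ℚ (Set.range ![(1 : K), d]) := by
  intro x _
  obtain ⟨a, b, h⟩ := hK x
  have e : x = a • (1 : K) + b • d := by
    rw [h, Algebra.smul_def, Algebra.smul_def, mul_one]
    simp
  rw [e]
  apply Submodule.add_mem
  · exact Submodule.smul_mem _ _ (Submodule.subset_span ⟨0, by simp⟩)
  · exact Submodule.smul_mem _ _ (Submodule.subset_span ⟨1, by simp⟩)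

/-- the basis `1, d` -/
noncomputable def bas (hn : ∀ q : ℚ, algebraMap ℚ K q ≠ d)
    (hK : ∀ x : K, ∃ a b : ℚ, x = (a : K) + (b : K) * d) : Basis (Fin 2) ℚ K :=
  Basis.mk (linInd hn) (span_top hK)

variable (hn : ∀ q : ℚ, algebraMap ℚ K q ≠ d) (hK : ∀ x : K, ∃ a b : ℚ, x = (a : K) + (b : K) * d)

include hn hK in
lemma finr : finrank ℚ K = 2 := by
  rw [finrank_eq_card_basis (bas hn hK)]; simp

lemma bas_zero : bas hn hK 0 = 1 := by simp [bas]

lemma bas_one : bas hn hK 1 = d := by simp [bas]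

lemma repr_eq (a b : ℚ) :
    (bas hn hK).repr (algebraMap ℚ K a + algebraMap ℚ K b * d) = Finsupp.single 0 a +
      Finsupp.single 1 b := by
  have : algebraMap ℚ K a + algebraMap ℚ K b * d = a • bas hn hK 0 + b • bas hn hK 1 := by
    rw [bas_zero, bas_one, Algebra.smul_def, Algebra.smul_def, mul_one]
  rw [this, map_add, map_smul, map_smul, Basis.repr_self, Basis.repr_self]
  simp

lemma mulMat (hd : d ^ 2 = (D : K)) (a b : ℚ) :
    Algebra.leftMulMatrix (bas hn hK) (algebraMap ℚ K a + algebraMap ℚ K b * d) =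
      !![a, D * b; b, a] := by
  ext i j
  rw [Algebra.leftMulMatrix_eq_repr_mul]
  fin_cases j
  · have e : (algebraMap ℚ K a + algebraMap ℚ K b * d) * bas hn hK 0 =
        algebraMap ℚ K a + algebraMap ℚ K b * d := by rw [bas_zero, mul_one]
    show ((bas hn hK).repr ((algebraMap ℚ K a + algebraMap ℚ K b * d) * bas hn hK 0)) i = _
    rw [e, repr_eq]
    fin_cases i <;> simp
  · have e : (algebraMap ℚ K a + algebraMap ℚ K b * d) * bas hn hK 1 =
        algebraMap ℚ K (D * b) + algebraMap ℚ K a * d := by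
      rw [bas_one]
      have : algebraMap ℚ K (D * b) = (D : K) * algebraMap ℚ K b := by simp
      rw [this, ← hd]
      ring
    show ((bas hn hK).repr ((algebraMap ℚ K a + algebraMap ℚ K b * d) * bas hn hK 1)) i = _
    rw [e, repr_eq]
    fin_cases i <;> simp

include hn hK in
lemma trace_eq (hd : d ^ 2 = (D : K)) (a b : ℚ) :
    Algebra.trace ℚ K (algebraMap ℚ K a + algebraMap ℚ K b * d) = 2 * a := by
  rw [Algebra.trace_eq_matrix_trace (bas hn hK), mulMat hn hK hd]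
  simp [Matrix.trace_fin_two]
  ring

include hn hK in
lemma norm_eq (hd : d ^ 2 = (D : K)) (a b : ℚ) :
    Algebra.norm ℚ (algebraMap ℚ K a + algebraMap ℚ K b * d) = a ^ 2 - D * b ^ 2 := by
  rw [Algebra.norm_eq_matrix_det (bas hn hK), mulMat hn hK hd]
  simp [Matrix.det_fin_two]
  ring

/-- a rational `u` with `D u²` an integer is an integer -/
lemma int_of_sq (hsq : Squarefree D) (u : ℚ) (n : ℤ) (h : D * u ^ 2 = n) :
    ∃ m : ℤ, u = m := by
  have hden : (u.den : ℤ) * u.den ∣ D := by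
    have h0 : (u.den : ℚ) ≠ 0 := by exact_mod_cast u.den_nz
    have h1 : (D : ℚ) * (u.num : ℚ) ^ 2 = n * (u.den : ℚ) ^ 2 := by
      have h2 : u * u.den = u.num := Rat.mul_den_eq_num u
      rw [← h2, ← h]; ring
    have h3 : D * u.num ^ 2 = n * (u.den : ℤ) ^ 2 := by exact_mod_cast h1
    have h4 : (u.den : ℤ) ^ 2 ∣ D * u.num ^ 2 := ⟨n, by rw [h3]; ring⟩
    have h5 : IsCoprime ((u.den : ℤ) ^ 2) (u.num ^ 2) := by
      apply IsCoprime.pow
      have := u.reduced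
      rw [Int.isCoprime_iff_gcd_eq_one]
      rw [Int.gcd_comm]
      simpa [Int.gcd, Nat.Coprime] using this
    have h6 := h5.dvd_of_dvd_mul_right h4
    rwa [sq] at h6
  have h7 : IsUnit (u.den : ℤ) := hsq _ hden
  have h8 : u.den = 1 := by
    rcases Int.isUnit_iff.1 h7 with h | h <;> omega
  exact ⟨u.num, (Rat.coe_int_num_of_den_eq_one h8).symm⟩

include hn in
lemma coords (hsq : Squarefree D) (hd : d ^ 2 = (D : K)) 
    (hK : ∀ x : K, ∃ a b : ℚ, x = (a : K) + (b : K) * d) (x : K)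
    (hx : IsIntegral ℤ x) : ∃ t u : ℤ, 4 ∣ t ^ 2 - D * u ^ 2 ∧ 2 * x = t + u * d := by
  obtain ⟨a, b, hab⟩ := hK x
  have hab' : x = algebraMap ℚ K a + algebraMap ℚ K b * d := by rw [hab]; simp
  subst hab'
  have h1 := Algebra.isIntegral_trace (L := ℚ) (F := K) (R := ℤ) (x := algebraMap ℚ K a + algebraMap ℚ K b * d) hx
  have h3 := Algebra.isIntegral_norm (K := ℚ) (R := ℤ) (L := K) (x := algebraMap ℚ K a + algebraMap ℚ K b * d) hx
  rw [trace_eq hn hK hd] at h1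
  rw [norm_eq hn hK hd] at h3
  obtain ⟨t, ht⟩ := IsIntegrallyClosed.isIntegral_iff.1 h1
  obtain ⟨n, hn'⟩ := IsIntegrallyClosed.isIntegral_iff.1 h3
  have ht' : (t : ℚ) = 2 * a := by simpa using ht
  have hn'' : (n : ℚ) = a ^ 2 - D * b ^ 2 := by simpa using hn'
  obtain ⟨u, hu⟩ := int_of_sq hsq (2 * b) (t ^ 2 - 4 * n) (by push_cast; rw [ht', hn'']; ring)
  refine ⟨t, u, ⟨n, ?_⟩, ?_⟩
  · have : ((t ^ 2 - D * u ^ 2 : ℤ) : ℚ) = ((4 * n : ℤ) : ℚ) := by
      push_cast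
      rw [ht', hn'', ← hu]
      ring
    exact_mod_cast this
  · have e1 : (t : K) = 2 * algebraMap ℚ K a := by
      have : algebraMap ℚ K (t : ℚ) = algebraMap ℚ K (2 * a) := by rw [ht']
      simpa using this
    have e2 : (u : K) = 2 * algebraMap ℚ K b := by
      have : algebraMap ℚ K (u : ℚ) = algebraMap ℚ K (2 * b) := by rw [hu]
      simpa using this
    rw [e1, e2]
    ring

end

/-! ### places -/

section
variable {K : Type} [Field K] [NumberField K] {d : ℕ} {r : K}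

/-- the square root of `d` is integral -/
theorem exists_int (h : Qf d K r) : ∃ δ : 𝓞 K, algebraMap (𝓞 K) K δ = r ∧ δ ^ 2 = (d : 𝓞 K) := by
  have hi : IsIntegral ℤ r := by
    refine IsIntegral.of_pow (n := 2) (by norm_num) ?_
    rw [h.hr]
    exact isIntegral_algebraMap (R := ℤ) (A := K) (x := (d : ℤ)) |> fun h => by simpa using h
  obtain ⟨δ, hδ⟩ := (IsIntegralClosure.isIntegral_iff (R := ℤ) (A := 𝓞 K)).1 hi
  refine ⟨δ, hδ, ?_⟩
  apply FaithfulSMul.algebraMap_injective (𝓞 K) K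
  rw [map_pow, map_natCast, hδ]
  exact h.hr

omit [NumberField K] in
/-- an integer which is not divisible by `p` is a unit at the place of `p` -/
theorem not_mem_of_not_dvd {p : ℕ} (hpp : p.Prime) (v : HeightOneSpectrum (𝓞 K))
    (hv : ((p : ℕ) : 𝓞 K) ∈ v.asIdeal) (m : ℤ) (hm : ¬ (p : ℤ) ∣ m) : (m : 𝓞 K) ∉ v.asIdeal := by
  intro hmem
  obtain ⟨a, b, hab⟩ : IsCoprime (p : ℤ) m :=
    (Prime.irreducible (Nat.prime_iff_prime_int.1 hpp)).coprime_iff_not_dvd.2 hm
  apply v.isPrime.ne_top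
  rw [Ideal.eq_top_iff_one]
  have e : (1 : 𝓞 K) = (a : 𝓞 K) * ((p : ℕ) : 𝓞 K) + (b : 𝓞 K) * (m : 𝓞 K) := by
    have := congrArg (fun z : ℤ => (z : 𝓞 K)) hab
    push_cast at this
    exact this.symm
  rw [e]
  exact add_mem (Ideal.mul_mem_left _ _ hv) (Ideal.mul_mem_left _ _ hmem)

omit [NumberField K] in
theorem mem_of_dvd {p : ℕ} (v : HeightOneSpectrum (𝓞 K))
    (hv : ((p : ℕ) : 𝓞 K) ∈ v.asIdeal) (m : ℤ) (hm : (p : ℤ) ∣ m) : (m : 𝓞 K) ∈ v.asIdeal := by
  obtain ⟨t, rfl⟩ := hm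
  push_cast
  exact Ideal.mul_mem_right _ _ hv

/-- a prime which does not divide `2 d` is not ramified -/
theorem not_mem_sq (h : Qf d K r) {p : ℕ} (hp : p.Prime) (hpD : ¬ p ∣ 2 * d)
    (v : HeightOneSpectrum (𝓞 K)) (hv : ((p : ℕ) : 𝓞 K) ∈ v.asIdeal) :
    ((p : ℕ) : 𝓞 K) ∉ v.asIdeal ^ 2 := by
  intro h2
  obtain ⟨δ, hδ, hδ2⟩ := exists_int h
  have hadj : Algebra.adjoin ℚ {algebraMap (𝓞 K) K δ} = ⊤ := by
    rw [eq_top_iff]
    rintro x -
    obtain ⟨a, b, hx⟩ := h.hK x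
    rw [hδ]
    have e : x = algebraMap ℚ K a + algebraMap ℚ K b * r := hx
    rw [e]
    exact add_mem (Subalgebra.algebraMap_mem _ _) (mul_mem (Subalgebra.algebraMap_mem _ _)
      (Algebra.subset_adjoin rfl))
  have h3 := aeval_derivative_mem_differentIdeal ℤ ℚ K δ hadj
  have hpp : Prime (p : ℤ) := Nat.prime_iff_prime_int.1 hp
  have hpb : Ideal.span {(p : ℤ)} ≠ ⊥ := by
    rw [Ne, Ideal.span_singleton_eq_bot]
    exact_mod_cast hp.ne_zero
  have hpm : (Ideal.span {(p : ℤ)}).IsMaximal :=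
    Ideal.IsPrime.isMaximal ((Ideal.span_singleton_prime hpp.ne_zero).2 hpp) hpb
  have h4 : v.asIdeal ^ (2 - 1) ∣ differentIdeal ℤ (𝓞 K) := by
    apply pow_sub_one_dvd_differentIdeal ℤ v.asIdeal 2 (p := Ideal.span {(p : ℤ)}) hpb
    rw [Ideal.map_span, Set.image_singleton, Ideal.dvd_span_singleton]
    simpa using h2
  rw [pow_one, Ideal.dvd_iff_le] at h4
  have h5 := h4 h3
  have hint : IsIntegral ℤ δ := RingOfIntegers.isIntegral δ
  obtain ⟨g, hg⟩ : minpoly ℤ δ ∣ (Polynomial.X ^ 2 - Polynomial.C (d : ℤ) : Polynomial ℤ) := by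
    apply minpoly.isIntegrallyClosed_dvd hint
    simp [hδ2]
  have h6 := congrArg (fun q => Polynomial.aeval δ (Polynomial.derivative q)) hg
  simp only [Polynomial.derivative_sub, Polynomial.derivative_X_pow, Polynomial.derivative_C,
    sub_zero, Polynomial.derivative_mul, map_add, map_mul, minpoly.aeval, zero_mul, add_zero] at h6
  have h7 : 2 * δ ∈ v.asIdeal := by
    have e : 2 * δ = Polynomial.aeval δ (Polynomial.derivative (minpoly ℤ δ)) *
        Polynomial.aeval δ g := by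
      rw [← h6, Polynomial.aeval_C, map_pow, Polynomial.aeval_X]
      norm_num
    rw [e]
    exact Ideal.mul_mem_right _ _ h5
  have h8 : (((2 * d : ℕ) : ℤ) : 𝓞 K) ∈ v.asIdeal := by
    have e : (((2 * d : ℕ) : ℤ) : 𝓞 K) = δ * (2 * δ) := by
      push_cast
      rw [← hδ2]
      ring
    rw [e]
    exact Ideal.mul_mem_left _ _ h7
  exact not_mem_of_not_dvd hp v hv _ (by exact_mod_cast hpD) h8

theorem val_exp (v : HeightOneSpectrum (𝓞 K)) {p : ℕ}
    (hv : ((p : ℕ) : 𝓞 K) ∈ v.asIdeal) (h2 : ((p : ℕ) : 𝓞 K) ∉ v.asIdeal ^ 2) :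
    v.valuation K (p : K) = exp (-1 : ℤ) := by
  have e : algebraMap (𝓞 K) K (p : 𝓞 K) = (p : K) := map_natCast _ p
  rw [← e, HeightOneSpectrum.valuation_of_algebraMap]
  have h1 : v.intValuation ((p : ℕ) : 𝓞 K) ≤ exp (-(1 : ℕ) : ℤ) := by
    rw [HeightOneSpectrum.intValuation_le_pow_iff_mem, pow_one]
    exact hv
  have h3 : ¬ v.intValuation ((p : ℕ) : 𝓞 K) ≤ exp (-(2 : ℕ) : ℤ) := by
    rw [HeightOneSpectrum.intValuation_le_pow_iff_mem]
    exact h2
  have h0 : v.intValuation ((p : ℕ) : 𝓞 K) ≠ 0 := by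
    intro h0
    apply h3
    rw [h0]
    exact zero_le
  generalize v.intValuation ((p : ℕ) : 𝓞 K) = x at h0 h1 h3
  rw [← exp_log h0] at h1 h3 ⊢
  rw [exp_le_exp] at h1 h3
  congr 1
  push_cast at h1 h3
  omega

/-- the valuation on the completion -/
noncomputable abbrev VV (v : HeightOneSpectrum (𝓞 K)) : Valuation (v.adicCompletion K) ℤᵐ⁰ := Valued.v

theorem vv_int (v : HeightOneSpectrum (𝓞 K)) (n : ℤ) :
    VV v ((n : ℤ) : v.adicCompletion K) = v.valuation K (n : K) := by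
  have h : ((n : ℤ) : v.adicCompletion K) = algebraMap K (v.adicCompletion K) (n : K) :=
    (map_intCast (algebraMap K (v.adicCompletion K)) n).symm
  rw [h]
  exact HeightOneSpectrum.valuedAdicCompletion_eq_valuation' v _

theorem vv_le_one (v : HeightOneSpectrum (𝓞 K)) (n : ℤ) :
    VV v ((n : ℤ) : v.adicCompletion K) ≤ 1 := by
  rw [vv_int]
  have h := v.valuation_le_one (K := K) ((n : ℤ) : 𝓞 K)
  have e : algebraMap (𝓞 K) K ((n : ℤ) : 𝓞 K) = (n : K) := map_intCast _ n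
  exact e ▸ h

/-- units -/
theorem vv_one {p : ℕ} (hp : p.Prime) (v : HeightOneSpectrum (𝓞 K)) (hv : ((p : ℕ) : 𝓞 K) ∈ v.asIdeal)
    (m : ℤ) (h : ¬ (p : ℤ) ∣ m) : VV v ((m : ℤ) : v.adicCompletion K) = 1 := by
  rw [vv_int]
  have e : algebraMap (𝓞 K) K ((m : ℤ) : 𝓞 K) = (m : K) := map_intCast _ m
  rw [← e, HeightOneSpectrum.valuation_of_algebraMap]
  exact HeightOneSpectrum.intValuation_eq_one_iff.2 (not_mem_of_not_dvd hp v hv m h)

/-- the uniformizer -/
theorem vv_p (h : Qf d K r) {p : ℕ} (hp : p.Prime) (hpD : ¬ p ∣ 2 * d)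
    (v : HeightOneSpectrum (𝓞 K)) (hv : ((p : ℕ) : 𝓞 K) ∈ v.asIdeal) :
    VV v ((p : ℕ) : v.adicCompletion K) = exp (-1 : ℤ) := by
  have h1 := val_exp v hv (not_mem_sq h hp hpD v hv)
  have h2 := vv_int v (p : ℤ)
  rw [Int.cast_natCast, Int.cast_natCast] at h2
  rw [h2, h1]

/-- an integer exactly divisible by `p` -/
theorem vv_sqf (h : Qf d K r) {p : ℕ} (hp : p.Prime) (hpD : ¬ p ∣ 2 * d)
    (v : HeightOneSpectrum (𝓞 K)) (hv : ((p : ℕ) : 𝓞 K) ∈ v.asIdeal) (a : ℤ) (ha : Squarefree a)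
    (hpa : (p : ℤ) ∣ a) : VV v ((a : ℤ) : v.adicCompletion K) = exp (-1 : ℤ) := by
  obtain ⟨b, rfl⟩ := hpa
  have hb : ¬ (p : ℤ) ∣ b := by
    rintro ⟨c, rfl⟩
    have h1 := ha (p : ℤ) ⟨c, by ring⟩
    exact (Nat.prime_iff_prime_int.1 hp).not_isUnit h1
  rw [Int.cast_mul, map_mul, vv_one hp v hv b hb, mul_one, Int.cast_natCast]
  exact vv_p h hp hpD v hv

/-- principal units are squares -/
theorem hensel {p : ℕ} (hp : p.Prime) (hp2 : p ≠ 2) (v : HeightOneSpectrum (𝓞 K))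
    (hv : ((p : ℕ) : 𝓞 K) ∈ v.asIdeal) (x : v.adicCompletion K) (hx : VV v (x - 1) < 1) :
    IsSquare x := by
  have h2 : VV v (2 : v.adicCompletion K) = 1 := by
    have := vv_one hp v hv 2 (by
      intro h
      have h1 : p ∣ 2 := by exact_mod_cast h
      exact hp2 ((Nat.prime_dvd_prime_iff_eq hp Nat.prime_two).1 h1))
    exact_mod_cast this
  obtain ⟨z, hz, -⟩ := Pool.Agent.TH115.GD.sqrt_one_unit (L := v.adicCompletion K) h2 x hx
  exact ⟨z, by rw [← hz]; ring⟩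

theorem vv_emb (v : HeightOneSpectrum (𝓞 K)) (x : 𝓞 K) (hx : x ∈ v.asIdeal) :
    VV v (algebraMap (𝓞 K) (v.adicCompletion K) x) < 1 := by
  rw [IsScalarTower.algebraMap_apply (𝓞 K) K (v.adicCompletion K)]
  show Valued.v (algebraMap K (v.adicCompletion K) _) < 1
  rw [Pool.Agent.H723R3.valued_algebraMap]
  exact (v.valuation_lt_one_iff_mem (K := K) _).2 hx

theorem mem_of_vv (v : HeightOneSpectrum (𝓞 K)) (x : 𝓞 K)
    (hx : VV v (algebraMap (𝓞 K) (v.adicCompletion K) x) < 1) : x ∈ v.asIdeal := by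
  rw [IsScalarTower.algebraMap_apply (𝓞 K) K (v.adicCompletion K)] at hx
  change Valued.v (algebraMap K (v.adicCompletion K) _) < 1 at hx
  rw [Pool.Agent.H723R3.valued_algebraMap] at hx
  exact (v.valuation_lt_one_iff_mem (K := K) _).1 hx

/-- if `d` is a square modulo `p` then the residue field is the prime field -/
theorem res_int (h : Qf d K r) (hd : Squarefree d) (hd1 : d ≠ 1) {p : ℕ} (hp : p.Prime)
    (hp2 : p ≠ 2) (v : HeightOneSpectrum (𝓞 K)) (hv : ((p : ℕ) : 𝓞 K) ∈ v.asIdeal) (c : ℤ)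
    (hc : (p : ℤ) ∣ c ^ 2 - d) (x : 𝓞 K) : ∃ k : ℤ, x - (k : 𝓞 K) ∈ v.asIdeal := by
  obtain ⟨δ, hδ, hδ2⟩ := exists_int h
  have hDsq : Squarefree (d : ℤ) := Int.squarefree_natCast.2 hd
  have hD1 : (d : ℤ) ≠ 1 := by exact_mod_cast hd1
  have hrd : r ^ 2 = ((d : ℤ) : K) := by rw [h.hr]; push_cast; rfl
  obtain ⟨t, u, -, htu⟩ := coords (fun q => not_rat hDsq hD1 hrd q) hDsq hrd h.hK (x : K) x.2
  have htu' : 2 * x = (t : 𝓞 K) + (u : 𝓞 K) * δ := by
    apply FaithfulSMul.algebraMap_injective (𝓞 K) K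
    rw [map_mul, map_add, map_mul, hδ, map_intCast, map_intCast, map_ofNat]
    exact htu
  -- `δ ≡ ± c`
  have h1 : (δ - (c : 𝓞 K)) * (δ + (c : 𝓞 K)) ∈ v.asIdeal := by
    have e : (δ - (c : 𝓞 K)) * (δ + (c : 𝓞 K)) = -(((c ^ 2 - d : ℤ)) : 𝓞 K) := by
      push_cast
      rw [← hδ2]
      ring
    rw [e]
    exact neg_mem (mem_of_dvd v hv _ hc)
  obtain ⟨c', hc'⟩ : ∃ c' : ℤ, δ - (c' : 𝓞 K) ∈ v.asIdeal := by
    rcases v.isPrime.mem_or_mem h1 with h2 | h2
    · exact ⟨c, h2⟩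
    · refine ⟨-c, ?_⟩
      push_cast
      rwa [sub_neg_eq_add]
  obtain ⟨k, hk⟩ : ∃ k : ℤ, (p : ℤ) = 2 * k - 1 := by
    have := hp.eq_two_or_odd
    exact ⟨((p : ℤ) + 1) / 2, by omega⟩
  refine ⟨k * (t + u * c'), ?_⟩
  have e : x - ((k * (t + u * c') : ℤ) : 𝓞 K) = -(x * ((p : ℕ) : 𝓞 K)) +
      (k : 𝓞 K) * (u : 𝓞 K) * (δ - (c' : 𝓞 K)) := by
    have hk' : ((p : ℕ) : 𝓞 K) = 2 * (k : 𝓞 K) - 1 := by
      have := congrArg (fun z : ℤ => (z : 𝓞 K)) hk
      push_cast at this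
      exact this
    rw [hk']
    push_cast
    linear_combination (k : 𝓞 K) * htu'
  rw [e]
  exact add_mem (neg_mem (Ideal.mul_mem_left _ _ hv)) (Ideal.mul_mem_left _ _ hc')

/-- nonresidues modulo `p` stay nonresidues in the completion, if `d` is a square modulo `p` -/
theorem nonres (h : Qf d K r) (hd : Squarefree d) (hd1 : d ≠ 1) {p : ℕ} (hp : p.Prime)
    (hp2 : p ≠ 2) (v : HeightOneSpectrum (𝓞 K)) (hv : ((p : ℕ) : 𝓞 K) ∈ v.asIdeal) (c : ℤ)
    (hc : (p : ℤ) ∣ c ^ 2 - d) (m : ℤ) (hm : ∀ k : ℤ, ¬ (p : ℤ) ∣ k ^ 2 - m) (s : v.adicCompletion K) :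
    ¬ VV v (s ^ 2 - (m : v.adicCompletion K)) < 1 := by
  intro hs
  have h1 : VV v s ≤ 1 := by
    by_contra hcon
    push Not at hcon
    have h2 : VV v (s ^ 2) ≤ 1 := by
      have e : s ^ 2 = (s ^ 2 - (m : v.adicCompletion K)) + (m : v.adicCompletion K) := by ring
      rw [e]
      exact (VV v).map_add_le hs.le (vv_le_one v m)
    rw [map_pow] at h2
    exact absurd h2 (not_le.2 (one_lt_pow' hcon (by norm_num)))
  obtain ⟨y, hy⟩ := Pool.Agent.H723R3.exists_approx_int (R := 𝓞 K) v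
    ((HeightOneSpectrum.mem_adicCompletionIntegers (𝓞 K) K v).2 h1) 1
  rw [Units.val_one] at hy
  obtain ⟨k, hk⟩ := res_int h hd hd1 hp hp2 v hv c hc y
  set Y : v.adicCompletion K := algebraMap (𝓞 K) (v.adicCompletion K) y with hY
  have h3 : VV v (Y - (k : v.adicCompletion K)) < 1 := by
    have := vv_emb v _ hk
    rwa [map_sub, map_intCast] at this
  have h4 : VV v (s - (k : v.adicCompletion K)) < 1 := by
    have e : s - (k : v.adicCompletion K) = (Y - (k : v.adicCompletion K)) - (Y - s) := by ring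
    rw [e]
    exact (VV v).map_sub_lt h3 hy
  have h5 : VV v (((k ^ 2 - m : ℤ)) : v.adicCompletion K) < 1 := by
    have e : (((k ^ 2 - m : ℤ)) : v.adicCompletion K) = (s ^ 2 - (m : v.adicCompletion K)) -
        (s - (k : v.adicCompletion K)) * (s + (k : v.adicCompletion K)) := by
      push_cast
      ring
    rw [e]
    refine (VV v).map_sub_lt hs ?_
    rw [map_mul]
    exact mul_lt_one_of_lt_of_le h4 ((VV v).map_add_le h1 (vv_le_one v k))
  apply hm k
  by_contra hcon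
  rw [vv_one hp v hv _ hcon] at h5
  exact lt_irrefl _ h5

end

end Pool.Agent.N49.QB
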