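import Mathlib

/-!
# Project QB (helper856): the valuations of `x - e` for the points of a curve `y² = X (X + δ) (X + u)`
-/

set_option autoImplicit false

open WithZero

namespace Pool.Agent.N49.QB

variable {L : Type*} [Field L] (V : Valuation L ℤᵐ⁰)

lemma isq_one : IsSquare (1 : ℤᵐ⁰) := ⟨1, by simp⟩

lemma isq_div {x y z : ℤᵐ⁰} (hy : y ≠ 0) (h : z ^ 2 = x * y) (hs : IsSquare y) : IsSquare x := by
  obtain ⟨t, ht⟩ := hs
  have ht0 : t ≠ 0 := by
    rintro rfl
    rw [mul_zero] at ht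
    exact hy ht
  refine ⟨z / t, ?_⟩
  rw [div_mul_div_comm, ← ht, ← sq, h, mul_div_assoc, div_self hy, mul_one]

lemma third {x y z w : ℤᵐ⁰} (hy : y ≠ 0) (hz : z ≠ 0) (h : w ^ 2 = y * z * x) (h1 : IsSquare y)
    (h2 : IsSquare z) : IsSquare x := by
  refine isq_div (mul_ne_zero hy hz) (z := w) ?_ (h1.mul h2)
  rw [h]
  exact mul_comm _ _

lemma not_isq : ¬ IsSquare (exp (-1 : ℤ) : ℤᵐ⁰) := by
  rintro ⟨t, ht⟩
  have ht0 : t ≠ 0 := by
    rintro rfl
    rw [mul_zero] at ht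
    exact exp_ne_zero ht
  rw [← exp_log ht0, ← exp_add, exp_inj] at ht
  omega

/-- good reduction -/
theorem ev_good {X δ u y : L} (hδ : V δ = 1) (hu : V u = 1) (hδu : V (δ - u) = 1) (hy : y ≠ 0)
    (he : y ^ 2 = X * (X + δ) * (X + u)) :
    IsSquare (V X) ∧ IsSquare (V (X + δ)) ∧ IsSquare (V (X + u)) := by
  have hy2 : y ^ 2 ≠ 0 := pow_ne_zero 2 hy
  have hX : X ≠ 0 := by rintro rfl; rw [he] at hy2; simp at hy2
  have hX1 : X + δ ≠ 0 := by intro h; rw [he, h] at hy2; simp at hy2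
  have hX2 : X + u ≠ 0 := by intro h; rw [he, h] at hy2; simp at hy2
  have vX : V X ≠ 0 := (V.ne_zero_iff).2 hX
  have vX1 : V (X + δ) ≠ 0 := (V.ne_zero_iff).2 hX1
  have hV : V y ^ 2 = V X * V (X + δ) * V (X + u) := by rw [← map_pow, he, map_mul, map_mul]
  suffices hs : IsSquare (V X) ∧ IsSquare (V (X + δ)) from
    ⟨hs.1, hs.2, third vX vX1 hV hs.1 hs.2⟩
  rcases lt_trichotomy (V X) 1 with h | h | h
  · have a1 : V (X + δ) = 1 := by
      rw [V.map_add_eq_of_lt_right (by rw [hδ]; exact h), hδ]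
    have a2 : V (X + u) = 1 := by
      rw [V.map_add_eq_of_lt_right (by rw [hu]; exact h), hu]
    rw [a1, a2, mul_one, mul_one] at hV
    exact ⟨⟨V y, by rw [← hV, sq]⟩, by rw [a1]; exact isq_one⟩
  · refine ⟨by rw [h]; exact isq_one, ?_⟩
    by_cases h1 : V (X + δ) = 1
    · rw [h1]; exact isq_one
    · have h2 : V (X + δ) < 1 := lt_of_le_of_ne (V.map_add_le h.le hδ.le) h1
      have h3 : V (X + u) = 1 := by
        have e : X + u = (X + δ) - (δ - u) := by ring
        rw [e, V.map_sub_eq_of_lt_right (by rw [hδu]; exact h2), hδu]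
      rw [h, h3, one_mul, mul_one] at hV
      exact ⟨V y, by rw [← hV, sq]⟩
  · have a1 : V (X + δ) = V X := V.map_add_eq_of_lt_left (by rw [hδ]; exact h)
    have a2 : V (X + u) = V X := V.map_add_eq_of_lt_left (by rw [hu]; exact h)
    rw [a1, a2] at hV
    have h3 : IsSquare (V X) := isq_div (mul_ne_zero vX vX) (z := V y)
      (by rw [hV, mul_assoc]) ⟨V X, rfl⟩
    exact ⟨h3, by rw [a1]; exact h3⟩

/-- nonsplit multiplicative reduction -/
theorem ev_bad {X δ u y : L} (hδ0 : δ ≠ 0) (hδ : V δ < 1) (hδs : IsSquare (V δ)) (hu : V u = 1)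
    (hns : ∀ s : L, ¬ V (s ^ 2 - u) < 1) (hh : ∀ z : L, V (z - 1) < 1 → IsSquare z) (hy : y ≠ 0)
    (he : y ^ 2 = X * (X + δ) * (X + u)) :
    IsSquare (V X) ∧ IsSquare (V (X + δ)) ∧ IsSquare (V (X + u)) := by
  have hy2 : y ^ 2 ≠ 0 := pow_ne_zero 2 hy
  have hX : X ≠ 0 := by rintro rfl; rw [he] at hy2; simp at hy2
  have hX1 : X + δ ≠ 0 := by intro h; rw [he, h] at hy2; simp at hy2
  have hX2 : X + u ≠ 0 := by intro h; rw [he, h] at hy2; simp at hy2
  have vδ : V δ ≠ 0 := (V.ne_zero_iff).2 hδ0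
  have vX : V X ≠ 0 := (V.ne_zero_iff).2 hX
  have vX1 : V (X + δ) ≠ 0 := (V.ne_zero_iff).2 hX1
  have hV : V y ^ 2 = V X * V (X + δ) * V (X + u) := by rw [← map_pow, he, map_mul, map_mul]
  suffices hs : IsSquare (V X) ∧ IsSquare (V (X + δ)) from
    ⟨hs.1, hs.2, third vX vX1 hV hs.1 hs.2⟩
  rcases lt_trichotomy (V X) 1 with h | h | h
  · have a2 : V (X + u) = 1 := by
      rw [V.map_add_eq_of_lt_right (by rw [hu]; exact h), hu]
    rw [a2, mul_one] at hV
    rcases lt_trichotomy (V X) (V δ) with h1 | h1 | h1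
    · have a1 : V (X + δ) = V δ := V.map_add_eq_of_lt_right h1
      rw [a1] at hV
      exact ⟨isq_div vδ hV hδs, by rw [a1]; exact hδs⟩
    · rw [h1] at hV
      exact ⟨by rw [h1]; exact hδs, isq_div vδ (by rw [hV, mul_comm]) hδs⟩
    · exfalso
      obtain ⟨g, hg⟩ := hh (1 + δ / X) (by
        have e : 1 + δ / X - 1 = δ / X := by ring
        rw [e, map_div₀]
        rw [div_lt_one₀ (zero_lt_iff.2 vX)]
        exact h1)
      have hg0 : g ≠ 0 := by
        rintro rfl
        rw [mul_zero] at hg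
        apply hX1
        have : X + δ = X * (1 + δ / X) := by field_simp
        rw [this, hg, mul_zero]
      apply hns (y / (X * g))
      have e : (y / (X * g)) ^ 2 - u = X := by
        have e1 : X + δ = X * (g * g) := by
          rw [← hg]; field_simp
        rw [div_pow, he, e1]
        field_simp
        ring
      rw [e]
      exact h
  · have a1 : V (X + δ) = 1 := by
      rw [V.map_add_eq_of_lt_left (by rw [h]; exact hδ), h]
    exact ⟨by rw [h]; exact isq_one, by rw [a1]; exact isq_one⟩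
  · have a1 : V (X + δ) = V X := V.map_add_eq_of_lt_left (hδ.trans h)
    have a2 : V (X + u) = V X := V.map_add_eq_of_lt_left (by rw [hu]; exact h)
    rw [a1, a2] at hV
    have h3 : IsSquare (V X) := isq_div (mul_ne_zero vX vX) (z := V y)
      (by rw [hV, mul_assoc]) ⟨V X, rfl⟩
    exact ⟨h3, by rw [a1]; exact h3⟩

/-- the conclusion -/
theorem not_sq_mul {X a : L} (hX : X ≠ 0) (h1 : IsSquare (V X)) (h2 : IsSquare (X * a)) :
    V a ≠ exp (-1 : ℤ) := by
  intro ha
  obtain ⟨s, hs⟩ := h2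
  have h3 := congrArg V hs
  rw [map_mul, map_mul] at h3
  apply not_isq
  rw [← ha]
  exact isq_div ((V.ne_zero_iff).2 hX) (z := V s) (by rw [sq, ← h3, mul_comm]) h1

end Pool.Agent.N49.QB
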