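import Pool.Agent.N49.QB.Base
import Pool.Agent.N49.QB.Ev

/-!
# Project QB (helper856): QB-N1, the necessary condition at the places over `p`, `p ∤ 2 n d`
-/

set_option autoImplicit false

open NumberField IsDedekindDomain WithZero

namespace Pool.Agent.N49.QB

open Pool.Agent.N856.QB (Qf Hy LoF Lo S_N1)

theorem t_N1 : Pool.Agent.N856.QB.S_N1 := by
  intro n d hyp K _ _ r hq p hp hpn w hw a b ha hb hL
  obtain ⟨⟨hnsq, hn60⟩, ⟨hdsq, hd12, hd5⟩, h1, hc⟩ := hyp
  have hp2 : p ≠ 2 := by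
    rintro rfl
    exact hpn ⟨n * d, by ring⟩
  have hpn1 : ¬ p ∣ n := fun h => hpn ((h.mul_left 2).mul_right d)
  have hpd : ¬ p ∣ 2 * d := by
    intro h
    apply hpn
    rw [mul_right_comm]
    exact h.mul_right n
  have hpZ : Prime (p : ℤ) := Nat.prime_iff_prime_int.1 hp
  have hpnZ : ¬ (p : ℤ) ∣ (n : ℤ) := by exact_mod_cast hpn1
  have hd1 : d ≠ 1 := by omega
  obtain ⟨x, y, hy0, he, hsa, hsb⟩ := hL
  have he' : y ^ 2 = x * (x + ((-(9 * (n : ℤ)) : ℤ) : w.adicCompletion K)) *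
      (x + ((16 * (n : ℤ) : ℤ) : w.adicCompletion K)) := by
    rw [he]
    push_cast
    ring
  have hsa' : IsSquare (x * (a : w.adicCompletion K)) := by
    have e : x * (a : w.adicCompletion K) = (x - ((0 : ℤ) : w.adicCompletion K)) * a := by
      push_cast
      ring
    rw [e]
    exact hsa
  have hsb' : IsSquare ((x + ((-(9 * (n : ℤ)) : ℤ) : w.adicCompletion K)) * (b : w.adicCompletion K)) := by
    have e : (x + ((-(9 * (n : ℤ)) : ℤ) : w.adicCompletion K)) * (b : w.adicCompletion K) =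
        (x - ((-9 * (-n : ℤ) : ℤ) : w.adicCompletion K)) * b := by
      push_cast
      ring
    rw [e]
    exact hsb
  have hy2 : y ^ 2 ≠ 0 := pow_ne_zero 2 hy0
  have hx0 : x ≠ 0 := by
    rintro rfl
    rw [he'] at hy2
    simp at hy2
  have hx1 : x + ((-(9 * (n : ℤ)) : ℤ) : w.adicCompletion K) ≠ 0 := by
    intro h
    rw [he', h] at hy2
    simp at hy2
  have fin : ∀ e : w.adicCompletion K, e ≠ 0 → IsSquare (VV w e) → ∀ a : ℤ, Squarefree a →
      IsSquare (e * (a : w.adicCompletion K)) → ¬ (p : ℤ) ∣ a := fun e h0 h1 a ha h2 hpa =>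
    not_sq_mul (VV w) h0 h1 h2 (vv_sqf hq hp hpd w hw a ha hpa)
  suffices hs : IsSquare (VV w x) ∧ IsSquare (VV w (x + ((-(9 * (n : ℤ)) : ℤ) : w.adicCompletion K))) from
    ⟨fin x hx0 hs.1 a ha hsa', fin _ hx1 hs.2 b hb hsb'⟩
  have hpow : ∀ q k : ℕ, q.Prime → p ≠ q → ¬ (p : ℤ) ∣ ((q ^ k : ℕ) : ℤ) := by
    intro q k hqp hne h
    have h2 : p ∣ q ^ k := by exact_mod_cast h
    exact hne ((Nat.prime_dvd_prime_iff_eq hp hqp).1 (hp.dvd_of_dvd_pow h2))
  have h16 : ¬ (p : ℤ) ∣ 16 * (n : ℤ) := by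
    intro h
    rcases hpZ.dvd_or_dvd h with h2 | h2
    · exact hpow 2 4 Nat.prime_two hp2 (by exact_mod_cast h2)
    · exact hpnZ h2
  have v16 := vv_one hp w hw _ h16
  by_cases h3 : p = 3
  · -- `p = 3`
    subst h3
    have hv3 : VV w ((3 : ℕ) : w.adicCompletion K) = exp (-1 : ℤ) := vv_p hq hp hpd w hw
    have hvn := vv_one hp w hw _ hpnZ
    have hδ : VV w ((-(9 * (n : ℤ)) : ℤ) : w.adicCompletion K) = exp (-1 : ℤ) * exp (-1 : ℤ) := by
      have e : ((-(9 * (n : ℤ)) : ℤ) : w.adicCompletion K) =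
          -(((3 : ℕ) : w.adicCompletion K) * ((3 : ℕ) : w.adicCompletion K) *
            ((n : ℤ) : w.adicCompletion K)) := by
        push_cast
        ring
      rw [e, Valuation.map_neg, map_mul, map_mul, hv3, hvn, mul_one]
    have hns := nonres hq hdsq hd1 hp hp2 w hw 1 (by
      have : d % 3 = 1 := by omega
      push_cast
      omega) (16 * (n : ℤ)) (by
      intro k hk
      have h2 : n % 3 = 2 := by omega
      have h4 : (k ^ 2 - 16 * (n : ℤ)) % 3 = 0 := Int.emod_eq_zero_of_dvd (by exact_mod_cast hk)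
      have h5 : k % 3 = 0 ∨ k % 3 = 1 ∨ k % 3 = 2 := by omega
      obtain ⟨m, hm⟩ : ∃ m : ℤ, (n : ℤ) = 3 * m + 2 := ⟨(n : ℤ) / 3, by omega⟩
      rw [hm] at h4
      rcases h5 with h5 | h5 | h5
      · obtain ⟨j, rfl⟩ : ∃ j, k = 3 * j := ⟨k / 3, by omega⟩
        ring_nf at h4
        omega
      · obtain ⟨j, rfl⟩ : ∃ j, k = 3 * j + 1 := ⟨k / 3, by omega⟩
        ring_nf at h4
        omega
      · obtain ⟨j, rfl⟩ : ∃ j, k = 3 * j + 2 := ⟨k / 3, by omega⟩
        ring_nf at h4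
        omega)
    have hlt : (exp (-1 : ℤ) * exp (-1 : ℤ) : ℤᵐ⁰) < 1 := by
      rw [← exp_add, ← exp_zero, exp_lt_exp]
      norm_num
    obtain ⟨g1, g2, -⟩ := ev_bad (VV w) (X := x)
      (δ := ((-(9 * (n : ℤ)) : ℤ) : w.adicCompletion K))
      (u := ((16 * (n : ℤ) : ℤ) : w.adicCompletion K)) (y := y)
      (by
        intro h0
        rw [h0, map_zero] at hδ
        exact (mul_ne_zero exp_ne_zero exp_ne_zero) hδ.symm)
      (by rw [hδ]; exact hlt) (by rw [hδ]; exact ⟨_, rfl⟩) v16 hns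
      (fun z hz => hensel hp hp2 w hw z hz) hy0 he'
    exact ⟨g1, g2⟩
  have h9 : ¬ (p : ℤ) ∣ 9 * (n : ℤ) := by
    intro h
    rcases hpZ.dvd_or_dvd h with h2 | h2
    · exact hpow 3 2 Nat.prime_three h3 (by exact_mod_cast h2)
    · exact hpnZ h2
  have v9 := vv_one hp w hw _ h9
  by_cases h5 : p = 5
  · subst h5
    have hv5 : VV w ((5 : ℕ) : w.adicCompletion K) = exp (-1 : ℤ) := vv_p hq hp hpd w hw
    have hvn := vv_one hp w hw _ hpnZ
    have hδ : VV w ((25 * (n : ℤ) : ℤ) : w.adicCompletion K) = exp (-1 : ℤ) * exp (-1 : ℤ) := by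
      have e : ((25 * (n : ℤ) : ℤ) : w.adicCompletion K) =
          (((5 : ℕ) : w.adicCompletion K) * ((5 : ℕ) : w.adicCompletion K) *
            ((n : ℤ) : w.adicCompletion K)) := by
        push_cast
        ring
      rw [e, map_mul, map_mul, hv5, hvn, mul_one]
    obtain ⟨c, hcc⟩ : ∃ c : ℤ, ((5 : ℕ) : ℤ) ∣ c ^ 2 - d := by
      rcases hd5 with h | h
      · exact ⟨1, by push_cast; omega⟩
      · exact ⟨2, by push_cast; omega⟩
    have hns := nonres hq hdsq hd1 hp hp2 w hw c hcc (9 * (n : ℤ)) (by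
      intro k hk
      have h2 : n % 5 = 3 ∨ n % 5 = 2 := by omega
      have h4 : (k ^ 2 - 9 * (n : ℤ)) % 5 = 0 := Int.emod_eq_zero_of_dvd (by exact_mod_cast hk)
      have h5 : k % 5 = 0 ∨ k % 5 = 1 ∨ k % 5 = 2 ∨ k % 5 = 3 ∨ k % 5 = 4 := by omega
      obtain ⟨m, s, hm, hs⟩ : ∃ m s : ℤ, (n : ℤ) = 5 * m + s ∧ (s = 3 ∨ s = 2) :=
        ⟨(n : ℤ) / 5, (n : ℤ) % 5, by omega, by omega⟩
      rw [hm] at h4
      rcases hs with rfl | rfl <;> rcases h5 with h5 | h5 | h5 | h5 | h5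
      · obtain ⟨j, rfl⟩ : ∃ j, k = 5 * j := ⟨k / 5, by omega⟩
        ring_nf at h4
        omega
      · obtain ⟨j, rfl⟩ : ∃ j, k = 5 * j + 1 := ⟨k / 5, by omega⟩
        ring_nf at h4
        omega
      · obtain ⟨j, rfl⟩ : ∃ j, k = 5 * j + 2 := ⟨k / 5, by omega⟩
        ring_nf at h4
        omega
      · obtain ⟨j, rfl⟩ : ∃ j, k = 5 * j + 3 := ⟨k / 5, by omega⟩
        ring_nf at h4
        omega
      · obtain ⟨j, rfl⟩ : ∃ j, k = 5 * j + 4 := ⟨k / 5, by omega⟩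
        ring_nf at h4
        omega
      · obtain ⟨j, rfl⟩ : ∃ j, k = 5 * j := ⟨k / 5, by omega⟩
        ring_nf at h4
        omega
      · obtain ⟨j, rfl⟩ : ∃ j, k = 5 * j + 1 := ⟨k / 5, by omega⟩
        ring_nf at h4
        omega
      · obtain ⟨j, rfl⟩ : ∃ j, k = 5 * j + 2 := ⟨k / 5, by omega⟩
        ring_nf at h4
        omega
      · obtain ⟨j, rfl⟩ : ∃ j, k = 5 * j + 3 := ⟨k / 5, by omega⟩
        ring_nf at h4
        omega
      · obtain ⟨j, rfl⟩ : ∃ j, k = 5 * j + 4 := ⟨k / 5, by omega⟩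
        ring_nf at h4
        omega)
    have hlt : (exp (-1 : ℤ) * exp (-1 : ℤ) : ℤᵐ⁰) < 1 := by
      rw [← exp_add, ← exp_zero, exp_lt_exp]
      norm_num
    obtain ⟨g1, -, g2⟩ := ev_bad (VV w) (X := x + ((-(9 * (n : ℤ)) : ℤ) : w.adicCompletion K))
      (δ := ((25 * (n : ℤ) : ℤ) : w.adicCompletion K))
      (u := ((9 * (n : ℤ) : ℤ) : w.adicCompletion K)) (y := y)
      (by
        intro h0
        rw [h0, map_zero] at hδ
        exact (mul_ne_zero exp_ne_zero exp_ne_zero) hδ.symm)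
      (by rw [hδ]; exact hlt) (by rw [hδ]; exact ⟨_, rfl⟩) v9 hns
      (fun z hz => hensel hp hp2 w hw z hz) hy0 (by
        rw [he']
        push_cast
        ring)
    have e : x + ((-(9 * (n : ℤ)) : ℤ) : w.adicCompletion K) +
        ((9 * (n : ℤ) : ℤ) : w.adicCompletion K) = x := by
      push_cast
      ring
    rw [e] at g2
    exact ⟨g2, g1⟩
  have h25 : ¬ (p : ℤ) ∣ 25 * (n : ℤ) := by
    intro h
    rcases hpZ.dvd_or_dvd h with h2 | h2
    · exact hpow 5 2 (by norm_num) h5 (by exact_mod_cast h2)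
    · exact hpnZ h2
  have v25 := vv_one hp w hw _ h25
  obtain ⟨g1, g2, -⟩ := ev_good (VV w) (X := x)
      (δ := ((-(9 * (n : ℤ)) : ℤ) : w.adicCompletion K))
      (u := ((16 * (n : ℤ) : ℤ) : w.adicCompletion K)) (y := y)
      (by rw [Int.cast_neg, Valuation.map_neg]; exact v9) v16 (by
        have e : ((-(9 * (n : ℤ)) : ℤ) : w.adicCompletion K) - ((16 * (n : ℤ) : ℤ) : w.adicCompletion K) =
            -((25 * (n : ℤ) : ℤ) : w.adicCompletion K) := by
          push_cast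
          ring
        rw [e, Valuation.map_neg]
        exact v25) hy0 he'
  exact ⟨g1, g2⟩

end Pool.Agent.N49.QB
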